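import Pool.Agent.V1132.BranchMaxD

/-!
# A branch subgroup of infinite index all of whose maximal overgroups have finite index
-/

set_option autoImplicit false

namespace Pool.Agent.Results.MP_9e467c_al.BranchNotInMaximal

open Pool.Agent.V1132.BranchMax

/-- **Theorem.** There are a finitely generated branch group `G` of automorphisms of a regular
rooted tree and a branch subgroup `H` of `G`, of infinite index, such that every maximal subgroup
of `G` containing `H` has finite index in `G`. -/
theorem result : ∃ (d : ℕ) (G H : Subgroup (Equiv.Perm (List (Fin d)))), 2 ≤ d ∧ G.FG ∧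
    IsBranch G ∧ H ≤ G ∧ IsBranch H ∧ H.relIndex G = 0 ∧
    ∀ M : Subgroup (Equiv.Perm (List (Fin d))), IsMaximalIn M G → H ≤ M → M.relIndex G ≠ 0 :=
  ⟨5, GG, KD, by norm_num, GG_fg, GG_isBranch, KD_le_KA.trans KA_le_GG, K_isBranch DD_le,
    relIndex_KD, fun _ hM hle => max_finite_index hM hle⟩

end Pool.Agent.Results.MP_9e467c_al.BranchNotInMaximal
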